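import Pool.Agent.W660.GY.Part3.Stm

namespace Pool.Agent.W660.GY.P3.GASMb

open Filter Topology MeasureTheory
open scoped Pointwise

lemma walk {G : Type} [Group G] (φ : G → ℝ) (Q : Set G) (e : ℝ)
    (h : ∀ g ∈ Q, ∀ x, |φ x - φ (g⁻¹ * x)| ≤ e) : ∀ n : ℕ, ∀ q ∈ Q ^ n, ∀ x,
    |φ (q * x) - φ x| ≤ n * e := by
  intro n
  induction n with
  | zero =>
    intro q hq x
    rw [pow_zero, Set.mem_one] at hq
    simp [hq]
  | succ n ih =>
    intro q hq x
    rw [pow_succ'] at hq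
    obtain ⟨g, hg, r, hr, rfl⟩ := Set.mem_mul.1 hq
    have h1 := ih r hr x
    have h2 := h g hg (g * r * x)
    have h3 : g⁻¹ * (g * r * x) = r * x := by group
    rw [h3] at h2
    push_cast
    have := abs_add_le (φ (g * r * x) - φ (r * x)) (φ (r * x) - φ x)
    have h4 : φ (g * r * x) - φ (r * x) + (φ (r * x) - φ x) = φ (g * r * x) - φ x := by ring
    rw [h4] at this
    linarith

theorem gasm : S_GASM := by
  intro hUC hPSI hPHI hTEL G _ _ _ _ _ K U hK hU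
  let _ : MeasurableSpace G := borel G
  have _ : BorelSpace G := ⟨rfl⟩
  set μ : Measure G := Measure.haar with hμ
  obtain ⟨C, hCc, hC1⟩ := exists_compact_mem_nhds (1 : G)
  obtain ⟨U1, hU1o, h1U1, hU1U⟩ := exists_open_nhds_one_mul_subset hU
  set U2 : Set G := U1 ∩ interior C with hU2
  have hU2o : IsOpen U2 := hU1o.inter isOpen_interior
  have h1U2 : (1 : G) ∈ U2 := ⟨h1U1, mem_interior_iff_mem_nhds.2 hC1⟩
  have hU2C : U2 ⊆ C := Set.inter_subset_right.trans interior_subset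
  have hU22 : U2 * U2 ⊆ U :=
    (Set.mul_subset_mul Set.inter_subset_left Set.inter_subset_left).trans hU1U
  obtain ⟨η, hη1, hη2, hη3, hη4⟩ := exists_continuous_one_zero_of_isCompact
    (isCompact_singleton (x := (1 : G))) (hU2o.isClosed_compl)
    (Set.disjoint_left.2 (by rintro x rfl hx; exact hx h1U2))
  have hη1' : η 1 = 1 := hη1 rfl
  have hηU : ∀ x, η x ≠ 0 → x ∈ U2 := by
    intro x hx
    by_contra hc
    exact hx (hη2 hc)
  -- lower bound
  have hc0 : 0 < ∫ y in U2, η y⁻¹ ∂μ := by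
    have hcont : Continuous fun y : G => η y⁻¹ := η.continuous.comp continuous_inv
    set W : Set G := U2 ∩ {y | 1 / 2 < η y⁻¹} with hW
    have hWo : IsOpen W := hU2o.inter (isOpen_lt continuous_const hcont)
    have h1W : (1 : G) ∈ W := ⟨h1U2, by simp [hη1']; norm_num⟩
    have hWpos : 0 < μ W := hWo.measure_pos μ ⟨1, h1W⟩
    have hUfin : μ U2 < ⊤ := (measure_mono hU2C).trans_lt hCc.measure_lt_top
    have hWfin : μ W < ⊤ := (measure_mono Set.inter_subset_left).trans_lt hUfin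
    have hint : IntegrableOn (fun y => η y⁻¹) U2 μ := by
      refine Measure.integrableOn_of_bounded hUfin.ne hcont.aestronglyMeasurable (M := 1) ?_
      refine ae_of_all _ fun y => ?_
      rw [Real.norm_eq_abs, abs_of_nonneg (hη4 _).1]
      exact (hη4 _).2
    have h1 : ∫ y in W, η y⁻¹ ∂μ ≤ ∫ y in U2, η y⁻¹ ∂μ := by
      refine setIntegral_mono_set hint ?_ ?_
      · exact ae_of_all _ fun y => (hη4 _).1
      · exact (Set.inter_subset_left : W ⊆ U2).eventuallyLE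
    have h2 : ∫ _y in W, (1 / 2 : ℝ) ∂μ ≤ ∫ y in W, η y⁻¹ ∂μ := by
      refine setIntegral_mono_on ?_ (hint.mono_set Set.inter_subset_left) hWo.measurableSet ?_
      · exact integrableOn_const hWfin.ne
      · intro y hy
        exact hy.2.le
    have h3 : 0 < ∫ _y in W, (1 / 2 : ℝ) ∂μ := by
      rw [setIntegral_const, smul_eq_mul]
      have : 0 < μ.real W := ENNReal.toReal_pos hWpos.ne' hWfin.ne
      positivity
    linarith
  set c0 : ℝ := ∫ y in U2, η y⁻¹ ∂μ with hc0'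
  set K1 : Set G := K * C with hK1
  have hK1c : IsCompact K1 := hK.mul hCc
  have hM0 : 0 ≤ μ.real K1 := measureReal_nonneg
  set ε : ℝ := c0 / (4 * (μ.real K1 + 1)) with hε
  have hεpos : 0 < ε := by positivity
  obtain ⟨V, hV, hVη⟩ := hUC G η K1 ε η.continuous hη3 hK1c hεpos
  refine ⟨V, hV, ?_⟩
  intro Q hQ hQV s hs hQK
  obtain ⟨ψ, hψ1, hψ2, hψ3, hψ4, hψ5, hψ6⟩ := hPSI G Q U2 s hQ hU2o hs
  have hsub : Q ^ s * U2 ⊆ K1 := Set.mul_subset_mul hQK hU2C
  have h1Q : (1 : G) ∈ Q ^ s := Set.one_mem_pow hQ.1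
  have hU2K1 : U2 ⊆ K1 := fun x hx => ⟨1, hQK h1Q, x, hU2C hx, one_mul x⟩
  obtain ⟨φ, hφ1, hφ2, hφ3, hφ4⟩ := hPHI G μ η ψ K1 U2 Q V ε s η.continuous hη3
    (fun x => (hη4 x).1) (fun x => (hη4 x).2) hK1c hU2o hU2K1 hεpos hs hψ1 hψ2 hψ3 hψ4
    (fun x hx => hsub (hψ5 x hx))
    (fun g hg => ⟨(hψ6 g hg).1, fun x hx => hsub ((hψ6 g hg).2 x hx)⟩) hVη
  have hD := hTEL G φ Q (μ.real K1 / s) (ε * μ.real K1 / s) hQ hφ3
    (fun g hg h hh => hφ4 g hg h (hQV hh))
  have hwalk := walk φ Q (ε * μ.real K1 / s) hD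
  intro q hq
  have h1 := hwalk (2 * s) q hq 1
  rw [mul_one] at h1
  have hs0 : (0 : ℝ) < s := by exact_mod_cast hs
  have h2 : ((2 * s : ℕ) : ℝ) * (ε * μ.real K1 / s) = 2 * (ε * μ.real K1) := by
    push_cast; field_simp
  rw [h2] at h1
  have h3 : 2 * (ε * μ.real K1) < c0 := by
    rw [hε]
    have : c0 / (4 * (μ.real K1 + 1)) * μ.real K1 ≤ c0 / 4 := by
      rw [div_mul_eq_mul_div, div_le_div_iff₀ (by positivity) (by norm_num)]
      nlinarith
    linarith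
  have h4 : φ q ≠ 0 := by
    intro h0
    rw [h0, zero_sub, abs_neg] at h1
    have := le_abs_self (φ 1)
    linarith
  obtain ⟨y, hy1, hy2⟩ := hφ1 q h4
  obtain ⟨a, ha, b, hb, hab⟩ := Set.mem_mul.1 (hψ5 y hy1)
  have hyq := hηU _ hy2
  refine Set.mem_mul.2 ⟨a, ha, b * (y⁻¹ * q), hU22 (Set.mul_mem_mul hb hyq), ?_⟩
  rw [← hab]; group

end Pool.Agent.W660.GY.P3.GASMb
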