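import Pool.Agent.W660.GY.Part3.Stm

namespace Pool.Agent.W660.GY.P3.LIMb

open Filter Topology MeasureTheory
open scoped Pointwise

theorem lcl : S_LCL := by
  intro G _ F A
  refine isClosed_of_closure_subset fun x hx O hO => ?_
  obtain ⟨y, hy1, hy2⟩ := mem_closure_iff.1 hx (interior O) isOpen_interior
    (mem_interior_iff_mem_nhds.2 hO)
  exact (hy2 (interior O) (isOpen_interior.mem_nhds hy1)).mono fun V h =>
    h.mono (Set.inter_subset_inter_right _ interior_subset)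

theorem lsub : S_LSUB := by
  intro G _ F _ A K hK hA x hx
  by_contra hc
  obtain ⟨V, h1, h2⟩ := (hA.and (hx Kᶜ (hK.isOpen_compl.mem_nhds hc))).exists
  obtain ⟨y, hy1, hy2⟩ := h2
  exact hy2 (h1 hy1)

theorem lcov : S_LCOV := by
  intro G _ F A K O hK hA hO hL
  by_contra hcon
  have h1 : ∀ᶠ V in (F : Filter (Set G)), ¬ A V ⊆ O := Ultrafilter.eventually_not.2 hcon
  have h2 : ∀ V, ∃ a : G, ¬ A V ⊆ O → a ∈ A V ∧ a ∉ O := by
    intro V
    by_cases h : A V ⊆ O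
    · by_cases hne : Nonempty G
      · exact ⟨hne.some, fun h' => absurd h h'⟩
      · obtain ⟨V', hV'⟩ := h1.exists
        obtain ⟨x, _⟩ := Set.not_subset.1 hV'
        exact absurd ⟨x⟩ hne
    · obtain ⟨a, ha⟩ := Set.not_subset.1 h
      exact ⟨a, fun _ => ha⟩
  choose a ha using h2
  have h3 : K ∈ F.map a := by
    show ∀ᶠ V in (F : Filter (Set G)), a V ∈ K
    filter_upwards [hA, h1] with V h4 h5
    exact h4 (ha V h5).1
  obtain ⟨x, hxK, hx⟩ := hK.ultrafilter_le_nhds (F.map a) (le_principal_iff.2 h3)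
  have hxL : x ∈ Lim (F : Filter (Set G)) A := by
    intro O1 hO1
    have h4 : ∀ᶠ V in (F : Filter (Set G)), a V ∈ O1 := hx hO1
    filter_upwards [h4, h1] with V h5 h6
    exact ⟨a V, (ha V h6).1, h5⟩
  have h4 : ∀ᶠ V in (F : Filter (Set G)), a V ∈ O := hx (hO.mem_nhds (hL hxL))
  obtain ⟨V, h5, h6⟩ := (h4.and h1).exists
  exact (ha V h6).2 h5

theorem core : S_CORE := by
  intro G _ _ _ _ L N O V hfin hNL hLN hNc hNV hO hNO hS
  have hmem : ∀ x, x ∈ N.normalCore ↔ ∀ g, g * x * g⁻¹ ∈ N := fun x => Iff.rfl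
  have hMN : N.normalCore ≤ N := Subgroup.normalCore_le N
  have hMc : IsCompact (N.normalCore : Set G) := by
    refine hNc.of_isClosed_subset ?_ hMN
    have h1 : (N.normalCore : Set G) = ⋂ g : G, {x | g * x * g⁻¹ ∈ (N : Set G)} := by
      ext x; simp [hmem]
    rw [h1]
    refine isClosed_iInter fun g => ?_
    exact hNc.isClosed.preimage (by fun_prop)
  have hQfin : Finite (G ⧸ L) := Subgroup.finite_quotient_of_finiteIndex
  set O1 : Set G := ⋂ q : G ⧸ L, {x | (q.out)⁻¹ * x * q.out ∈ O} with hO1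
  have hO1o : IsOpen O1 := by
    refine isOpen_iInter_of_finite fun q => ?_
    exact hO.preimage (by fun_prop)
  have hMO1 : (N.normalCore : Set G) ⊆ O1 := by
    intro x hx
    rw [hO1, Set.mem_iInter]
    intro q
    have h1 := (hmem x).1 hx (q.out)⁻¹
    rw [inv_inv] at h1
    exact hNO h1
  have hclaim : ∀ S : Subgroup G, (S : Set G) ⊆ O1 → S ≤ N.normalCore := by
    intro S hSO x hx
    have h1 : ∀ q : G ⧸ L, ∀ y ∈ S, (q.out)⁻¹ * y * q.out ∈ N := by
      intro q y hy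
      have h2 : S.map (MulAut.conj (q.out)⁻¹).toMonoidHom ≤ N := by
        apply hS
        rintro _ ⟨z, hz, rfl⟩
        have h3 := Set.mem_iInter.1 (hSO hz) q
        show (q.out)⁻¹ * z * (q.out)⁻¹⁻¹ ∈ O
        rw [inv_inv]; exact h3
      have h4 := h2 ⟨y, hy, rfl⟩
      have h5 : (MulAut.conj (q.out)⁻¹).toMonoidHom y = (q.out)⁻¹ * y * (q.out)⁻¹⁻¹ := rfl
      rw [h5, inv_inv] at h4
      exact h4
    rw [hmem]
    intro g
    set q : G ⧸ L := QuotientGroup.mk g⁻¹ with hq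
    have h2 : (q.out)⁻¹ * g⁻¹ ∈ L := QuotientGroup.eq.1 (Quotient.out_eq' q)
    have h3 := h1 q x hx
    have h4 := hLN _ (L.inv_mem h2) _ h3
    have h5 : ((q.out)⁻¹ * g⁻¹)⁻¹ * ((q.out)⁻¹ * x * q.out) * ((q.out)⁻¹ * g⁻¹)⁻¹⁻¹ =
      g * x * g⁻¹ := by group
    rwa [h5] at h4
  refine ⟨N.normalCore, inferInstance, hMc, fun x hx => hNV (hMN hx), ?_⟩
  obtain ⟨W, hW, hWM⟩ := compact_open_separated_mul_left hMc hO1o hMO1
  refine ⟨(QuotientGroup.mk : G → G ⧸ N.normalCore) '' W,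
    QuotientGroup.isOpenMap_coe.image_mem_nhds hW, ?_⟩
  intro S hSW
  have h1 : S.comap (QuotientGroup.mk' N.normalCore) ≤ N.normalCore := by
    apply hclaim
    intro x hx
    obtain ⟨w, hw, hwx⟩ := hSW (show (x : G ⧸ N.normalCore) ∈ S from hx)
    exact hWM (Set.mem_mul.2 ⟨w, hw, w⁻¹ * x, QuotientGroup.eq.1 hwx, by group⟩)
  rw [eq_bot_iff]
  intro y hy
  obtain ⟨x, rfl⟩ := QuotientGroup.mk_surjective y
  have h2 := h1 (show x ∈ S.comap (QuotientGroup.mk' N.normalCore) from hy)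
  exact Subgroup.mem_bot.2 ((QuotientGroup.eq_one_iff x).2 h2)

end Pool.Agent.W660.GY.P3.LIMb
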