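import Pool.Agent.W660.GY.Part3.Stm

namespace Pool.Agent.W660.GY.P3.PHIb

open Filter Topology MeasureTheory
open scoped Pointwise

section
variable {G : Type} [Group G] [TopologicalSpace G] [IsTopologicalGroup G] [T2Space G]
  [LocallyCompactSpace G] [MeasurableSpace G] [BorelSpace G] (μ : Measure G) [μ.IsHaarMeasure]

lemma intg {K : Set G} (hK : IsCompact K) {f b : G → ℝ} (M : ℝ) (hf : Measurable f)
    (hf1 : ∀ x, |f x| ≤ 1) (hfK : ∀ x, x ∉ K → f x = 0) (hb : Continuous b)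
    (hbM : ∀ x, |b x| ≤ M) : Integrable (fun y => f y * b y) μ := by
  have h1 : IntegrableOn (fun y => f y * b y) K μ := by
    refine Measure.integrableOn_of_bounded (M := M) hK.measure_lt_top.ne
      (hf.mul hb.measurable).aestronglyMeasurable ?_
    refine ae_of_all _ fun y => ?_
    rw [Real.norm_eq_abs, abs_mul]
    calc |f y| * |b y| ≤ 1 * |b y| := by gcongr; exact hf1 y
      _ = |b y| := one_mul _
      _ ≤ M := hbM y
  refine (integrableOn_iff_integrable_of_support_subset ?_).1 h1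
  intro y hy
  by_contra hc
  exact hy (by simp [hfK y hc])

lemma bnd {K : Set G} (hK : IsCompact K) {a b : G → ℝ} {A B : ℝ} (hA : 0 ≤ A)
    (ha : ∀ x, |a x| ≤ A) (haK : ∀ x, x ∉ K → a x = 0) (hb : ∀ x ∈ K, |b x| ≤ B) :
    |∫ y, a y * b y ∂μ| ≤ A * B * μ.real K := by
  rw [← setIntegral_eq_integral_of_forall_compl_eq_zero (s := K)
    (fun x hx => by rw [haK x hx, zero_mul])]
  have h1 := norm_setIntegral_le_of_norm_le_const (μ := μ) (f := fun y => a y * b y)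
    (C := A * B) hK.measure_lt_top (fun x hx => by
      rw [Real.norm_eq_abs, abs_mul]
      exact mul_le_mul (ha x) (hb x hx) (abs_nonneg _) hA)
  rwa [Real.norm_eq_abs] at h1

end

theorem phi : S_PHI := by
  intro G _ _ _ _ _ _ _ μ _ η ψ K U Q V ε s hη hηc hη0 hη1 hK hU hUK hε hs hψm hψ0 hψ1 hψU hψK
    hQ hV
  have hηabs : ∀ x, |η x| ≤ 1 := fun x => by rw [abs_of_nonneg (hη0 x)]; exact hη1 x
  have hψabs : ∀ x, |ψ x| ≤ 1 := fun x => by rw [abs_of_nonneg (hψ0 x)]; exact hψ1 x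
  have hψK' : ∀ x, x ∉ K → ψ x = 0 := fun x hx => by
    by_contra hc; exact hx (hψK x hc)
  have hs0 : (0 : ℝ) ≤ 1 / s := by positivity
  have hcη : ∀ x, Continuous fun y : G => η (y⁻¹ * x) := fun x => by fun_prop
  have hint1 : ∀ x, Integrable (fun y => ψ y * η (y⁻¹ * x)) μ := fun x =>
    intg μ hK 1 hψm hψabs hψK' (hcη x) (fun y => hηabs _)
  have hint2 : ∀ g ∈ Q, ∀ x, Integrable (fun y => ψ (g⁻¹ * y) * η (y⁻¹ * x)) μ := by
    intro g hg x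
    refine intg μ hK 1 (hψm.comp (measurable_const_mul _)) (fun y => hψabs _) ?_ (hcη x)
      (fun y => hηabs _)
    intro y hy
    have h1 := (hQ g hg).2 y
    have h2 : ψ y - ψ (g⁻¹ * y) = 0 := by
      by_contra hc; exact hy (h1 hc)
    rw [hψK' y hy] at h2
    simpa using h2
  have hshift : ∀ g x, ∫ y, ψ y * η (y⁻¹ * (g⁻¹ * x)) ∂μ = ∫ y, ψ (g⁻¹ * y) * η (y⁻¹ * x) ∂μ := by
    intro g x
    rw [← integral_mul_left_eq_self (μ := μ) (fun y => ψ (g⁻¹ * y) * η (y⁻¹ * x)) g]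
    refine integral_congr_ae (ae_of_all _ fun y => ?_)
    show ψ y * η (y⁻¹ * (g⁻¹ * x)) = ψ (g⁻¹ * (g * y)) * η ((g * y)⁻¹ * x)
    rw [inv_mul_cancel_left, mul_inv_rev, mul_assoc]
  have hD : ∀ g ∈ Q, ∀ x, (∫ y, ψ y * η (y⁻¹ * x) ∂μ) - ∫ y, ψ y * η (y⁻¹ * (g⁻¹ * x)) ∂μ =
      ∫ y, (ψ y - ψ (g⁻¹ * y)) * η (y⁻¹ * x) ∂μ := by
    intro g hg x
    rw [hshift g x, ← integral_sub (hint1 x) (hint2 g hg x)]
    refine integral_congr_ae (ae_of_all _ fun y => ?_)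
    show ψ y * η (y⁻¹ * x) - ψ (g⁻¹ * y) * η (y⁻¹ * x) = _
    ring
  have haK : ∀ g ∈ Q, ∀ x, x ∉ K → ψ x - ψ (g⁻¹ * x) = 0 := by
    intro g hg x hx
    by_contra hc; exact hx ((hQ g hg).2 x hc)
  have hint3 : ∀ g ∈ Q, ∀ x, Integrable (fun y => (ψ y - ψ (g⁻¹ * y)) * η (y⁻¹ * x)) μ := by
    intro g hg x
    have := (hint1 x).sub (hint2 g hg x)
    refine this.congr (ae_of_all _ fun y => ?_)
    show ψ y * η (y⁻¹ * x) - ψ (g⁻¹ * y) * η (y⁻¹ * x) = _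
    ring
  refine ⟨fun x => ∫ y, ψ y * η (y⁻¹ * x) ∂μ, ?_, ?_, ?_, ?_⟩
  · intro x hx
    by_contra hc
    push Not at hc
    apply hx
    show ∫ y, ψ y * η (y⁻¹ * x) ∂μ = 0
    rw [show (fun y => ψ y * η (y⁻¹ * x)) = fun _ => (0 : ℝ) from ?_, integral_zero]
    funext y
    by_cases h : ψ y = 0
    · rw [h, zero_mul]
    · rw [hc y h, mul_zero]
  · show ∫ y in U, η y⁻¹ ∂μ ≤ ∫ y, ψ y * η (y⁻¹ * 1) ∂μ
    have h1 : ∫ y in U, η y⁻¹ ∂μ = ∫ y in U, ψ y * η (y⁻¹ * 1) ∂μ := by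
      refine setIntegral_congr_fun hU.measurableSet fun y hy => ?_
      show η y⁻¹ = ψ y * η (y⁻¹ * 1)
      rw [hψU y hy, one_mul, mul_one]
    rw [h1]
    exact setIntegral_le_integral (hint1 1) (ae_of_all _ fun y => mul_nonneg (hψ0 _) (hη0 _))
  · intro g hg x
    show |(∫ y, ψ y * η (y⁻¹ * x) ∂μ) - ∫ y, ψ y * η (y⁻¹ * (g⁻¹ * x)) ∂μ| ≤ _
    rw [hD g hg x]
    have := bnd μ hK hs0 (hQ g hg).1 (haK g hg) (fun y _ => hηabs (y⁻¹ * x))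
    calc _ ≤ _ := this
      _ = μ.real K / s := by ring
  · intro g hg h hh x
    show |((∫ y, ψ y * η (y⁻¹ * x) ∂μ) - ∫ y, ψ y * η (y⁻¹ * (g⁻¹ * x)) ∂μ) -
      ((∫ y, ψ y * η (y⁻¹ * (h⁻¹ * x)) ∂μ) - ∫ y, ψ y * η (y⁻¹ * (g⁻¹ * (h⁻¹ * x))) ∂μ)| ≤ _
    rw [hD g hg x, hD g hg (h⁻¹ * x), ← integral_sub (hint3 g hg x) (hint3 g hg _)]
    have h1 : ∀ y, (ψ y - ψ (g⁻¹ * y)) * η (y⁻¹ * x) -
        (ψ y - ψ (g⁻¹ * y)) * η (y⁻¹ * (h⁻¹ * x)) =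
        (ψ y - ψ (g⁻¹ * y)) * (η (y⁻¹ * x) - η (y⁻¹ * (h⁻¹ * x))) := fun y => by ring
    simp_rw [h1]
    have := bnd μ hK hs0 (hQ g hg).1 (haK g hg)
      (b := fun y => η (y⁻¹ * x) - η (y⁻¹ * (h⁻¹ * x))) (B := ε) (fun y hy => by
        rw [abs_sub_comm]; exact hV h hh y hy x)
    calc _ ≤ _ := this
      _ = ε * μ.real K / s := by ring

end Pool.Agent.W660.GY.P3.PHIb
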