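import Pool.Agent.W660.GY.Part3.Stm

namespace Pool.Agent.W660.GY.P3.PSIb

open Filter Topology MeasureTheory
open scoped Pointwise

open Classical in
theorem psi : S_PSI := by
  intro G _ _ _ _ _ Q U s hQ hU hs
  have hs0 : (0 : ℝ) < s := by exact_mod_cast hs
  set w : ℕ → G → ℝ := fun j => Set.indicator (Q ^ j * U) (fun _ => (1 : ℝ)) with hw
  have hw0 : ∀ j x, 0 ≤ w j x := fun j x => Set.indicator_nonneg (fun _ _ => zero_le_one) x
  have hw1 : ∀ j x, w j x ≤ 1 := fun j x => by
    simp only [hw, Set.indicator_apply]; split_ifs <;> norm_num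
  have hwmem : ∀ j x, w j x ≠ 0 → x ∈ Q ^ j * U := fun j x h => by
    by_contra hc; exact h (Set.indicator_of_notMem hc _)
  have hwin : ∀ j x, x ∈ Q ^ j * U → w j x = 1 := fun j x h => Set.indicator_of_mem h _
  have hmono : ∀ j, j ≤ s → Q ^ j * U ⊆ Q ^ s * U := fun j hj =>
    Set.mul_subset_mul_right (Set.pow_subset_pow_right hQ.1 hj)
  set T : G → ℝ := fun x => ∑ j ∈ Finset.range s, w j x with hT
  have hTnn : ∀ x, 0 ≤ T x := fun x => Finset.sum_nonneg fun j _ => hw0 j x
  have hTs : ∀ x, T x ≤ s := fun x => by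
    calc T x ≤ ∑ _j ∈ Finset.range s, (1 : ℝ) := Finset.sum_le_sum fun j _ => hw1 j x
      _ = s := by simp
  have hTmem : ∀ x, T x ≠ 0 → ∃ j < s, x ∈ Q ^ j * U := fun x hx => by
    obtain ⟨j, hj, hjx⟩ := Finset.exists_ne_zero_of_sum_ne_zero hx
    exact ⟨j, Finset.mem_range.1 hj, hwmem j x hjx⟩
  have hup : ∀ g ∈ Q, ∀ x, T (g⁻¹ * x) ≤ T x + 1 := by
    intro g hg x
    have h1 : ∀ j, w j (g⁻¹ * x) ≤ w (j + 1) x := by
      intro j
      by_cases h : w j (g⁻¹ * x) = 0
      · rw [h]; exact hw0 _ _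
      · have h2 := hwmem j _ h
        have h3 : x ∈ Q ^ (j + 1) * U := by
          obtain ⟨a, ha, b, hb, hab⟩ := Set.mem_mul.1 h2
          refine Set.mem_mul.2 ⟨g * a, ?_, b, hb, ?_⟩
          · rw [pow_succ']; exact Set.mul_mem_mul hg ha
          · rw [mul_assoc, hab]; group
        rw [hwin _ _ h3]; exact hw1 _ _
    calc T (g⁻¹ * x) ≤ ∑ j ∈ Finset.range s, w (j + 1) x := Finset.sum_le_sum fun j _ => h1 j
      _ ≤ ∑ j ∈ Finset.range s, w (j + 1) x + w 0 x := by linarith [hw0 0 x]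
      _ = ∑ j ∈ Finset.range (s + 1), w j x := (Finset.sum_range_succ' (fun j => w j x) s).symm
      _ = T x + w s x := Finset.sum_range_succ (fun j => w j x) s
      _ ≤ T x + 1 := by linarith [hw1 s x]
  refine ⟨fun x => T x / s, ?_, ?_, ?_, ?_, ?_, ?_⟩
  · refine Measurable.div_const ?_ _
    refine Finset.measurable_sum _ fun j _ => ?_
    exact measurable_const.indicator (hU.mul_left).measurableSet
  · exact fun x => div_nonneg (hTnn x) hs0.le
  · exact fun x => (div_le_one hs0).2 (hTs x)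
  · intro x hx
    have h1 : T x = s := by
      calc T x = ∑ _j ∈ Finset.range s, (1 : ℝ) := Finset.sum_congr rfl fun j _ =>
            hwin j x (Set.mem_mul.2 ⟨1, Set.one_mem_pow hQ.1, x, hx, one_mul x⟩)
        _ = s := by simp
    show T x / s = 1
    rw [h1, div_self hs0.ne']
  · intro x hx
    have h1 : T x ≠ 0 := fun h => hx (by show T x / s = 0; rw [h, zero_div])
    obtain ⟨j, hj, hjx⟩ := hTmem x h1
    exact hmono j hj.le hjx
  · intro g hg
    have hginv : g⁻¹ ∈ Q := by
      have := hQ.2 g hg (-1)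
      simpa using this
    refine ⟨?_, ?_⟩
    · intro x
      show |T x / s - T (g⁻¹ * x) / s| ≤ 1 / s
      rw [← sub_div, abs_div, abs_of_pos hs0]
      refine (div_le_div_iff_of_pos_right hs0).2 ?_
      have h1 := hup g hg x
      have h2 := hup g⁻¹ hginv (g⁻¹ * x)
      have h3 : g⁻¹⁻¹ * (g⁻¹ * x) = x := by group
      rw [h3] at h2
      rw [abs_le]
      constructor <;> linarith
    · intro x hx
      by_cases h : T x = 0
      · have h1 : T (g⁻¹ * x) ≠ 0 := by
          intro h2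
          apply hx
          show T x / s - T (g⁻¹ * x) / s = 0
          rw [h, h2, sub_self]
        obtain ⟨j, hj, hjx⟩ := hTmem _ h1
        obtain ⟨a, ha, b, hb, hab⟩ := Set.mem_mul.1 hjx
        refine hmono (j + 1) hj (Set.mem_mul.2 ⟨g * a, ?_, b, hb, ?_⟩)
        · rw [pow_succ']; exact Set.mul_mem_mul hg ha
        · rw [mul_assoc, hab]; group
      · obtain ⟨j, hj, hjx⟩ := hTmem x h
        exact hmono j hj.le hjx

end Pool.Agent.W660.GY.P3.PSIb
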