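import Pool.Agent.W660.GY.Part3.Stm

namespace Pool.Agent.W660.GY.P3.TASMb

open Filter Topology
open scoped Pointwise

section
variable {G : Type} [Group G]

/-- union of the subgroups contained in `V` -/
def QQ (V : Set G) : Set G := {g | ∃ S : Subgroup G, (S : Set G) ⊆ V ∧ g ∈ S}

lemma qq_sub (V : Set G) : QQ V ⊆ V := fun _ ⟨_, h1, h2⟩ => h1 h2

lemma qq_us {V : Set G} (h : (1 : G) ∈ V) : US (QQ V) := by
  refine ⟨⟨⊥, ?_, Subgroup.one_mem _⟩, ?_⟩
  · rw [Subgroup.coe_bot]; exact Set.singleton_subset_iff.2 h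
  · rintro g ⟨S, h1, h2⟩ n
    exact ⟨S, h1, S.zpow_mem h2 n⟩

lemma pow_mono {Q : Set G} (h : (1 : G) ∈ Q) {m n : ℕ} (hmn : m ≤ n) : Q ^ m ⊆ Q ^ n :=
  Set.pow_subset_pow_right h hmn

lemma exists_exit {Q X : Set G} (h1 : (1 : G) ∈ Q) (hX : Q ⊆ X) (h : ∃ n : ℕ, ¬ Q ^ n ⊆ X) :
    ∃ s : ℕ, 1 ≤ s ∧ Q ^ s ⊆ X ∧ ¬ Q ^ (s + 1) ⊆ X := by
  classical
  have hs := Nat.find_spec h
  have hm := fun m => Nat.find_min h (m := m)
  set n0 := Nat.find h
  have h0 : n0 ≠ 0 := by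
    intro h0
    rw [h0, pow_zero] at hs
    exact hs (Set.singleton_subset_iff.2 (hX h1))
  have h1' : n0 ≠ 1 := by
    intro h0
    rw [h0, pow_one] at hs
    exact hs hX
  refine ⟨n0 - 1, by omega, ?_, ?_⟩
  · by_contra hc
    exact hm (n0 - 1) (by omega) hc
  · rw [show n0 - 1 + 1 = n0 by omega]; exact hs

lemma mem_pow_of_closure {Q : Set G} (hQ : US Q) {x : G} (hx : x ∈ Subgroup.closure Q) :
    ∃ n : ℕ, x ∈ Q ^ n := by
  induction hx using Subgroup.closure_induction with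
  | mem x hx => exact ⟨1, by rwa [pow_one]⟩
  | one => exact ⟨0, by simp⟩
  | mul x y _ _ ihx ihy =>
    obtain ⟨m, hm⟩ := ihx
    obtain ⟨n, hn⟩ := ihy
    exact ⟨m + n, by rw [pow_add]; exact Set.mul_mem_mul hm hn⟩
  | inv x _ ih =>
    obtain ⟨n, hn⟩ := ih
    refine ⟨n, ?_⟩
    have h1 : Q⁻¹ = Q := by
      ext g
      rw [Set.mem_inv]
      constructor
      · intro h
        have := hQ.2 _ h (-1)
        simpa using this
      · intro h
        have := hQ.2 _ h (-1)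
        simpa using this
    rw [← h1, inv_pow, Set.mem_inv, inv_inv]
    exact hn

end

theorem tasm : S_TASM := by
  intro hG hLCL hLSUB hLCOV hLGRP hLSTEP hPWG G _ _ _ _ _ U hU
  obtain ⟨K0, hK0n, hK0U, hK0c⟩ := local_compact_nhds hU
  have hK0cl : IsClosed K0 := hK0c.isClosed
  by_contra hcon
  have hexit : ∀ V ∈ 𝓝 (1 : G), ∃ n : ℕ, ¬ QQ V ^ n ⊆ K0 := by
    intro V hV
    by_contra hc
    push Not at hc
    apply hcon
    have hsub : ((Subgroup.closure (QQ V)).topologicalClosure : Set G) ⊆ K0 := by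
      rw [Subgroup.topologicalClosure_coe]
      refine closure_minimal ?_ hK0cl
      intro x hx
      obtain ⟨n, hn⟩ := mem_pow_of_closure (qq_us (mem_of_mem_nhds hV)) hx
      exact hc n hn
    refine ⟨V, hV, (Subgroup.closure (QQ V)).topologicalClosure, ?_, hsub.trans hK0U, ?_⟩
    · exact hK0c.of_isClosed_subset (Subgroup.isClosed_topologicalClosure _) hsub
    · intro S hS x hx
      exact Subgroup.le_topologicalClosure _ (Subgroup.subset_closure ⟨S, hS, hx⟩)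
  -- the ultrafilter
  have hne : ((𝓝 (1 : G)).smallSets ⊓ 𝓟 {V : Set G | V ∈ 𝓝 (1 : G)}).NeBot := by
    rw [← frequently_mem_iff_neBot, frequently_smallSets]
    intro W hW
    exact ⟨W, subset_rfl, hW⟩
  set F : Ultrafilter (Set G) :=
    Ultrafilter.of ((𝓝 (1 : G)).smallSets ⊓ 𝓟 {V : Set G | V ∈ 𝓝 (1 : G)}) with hF
  have hFle : (F : Filter (Set G)) ≤ (𝓝 (1 : G)).smallSets ⊓ 𝓟 {V : Set G | V ∈ 𝓝 (1 : G)} :=
    Ultrafilter.of_le _
  have hF1 : (F : Filter (Set G)) ≤ (𝓝 (1 : G)).smallSets := hFle.trans inf_le_left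
  have hF2 : ∀ᶠ V in (F : Filter (Set G)), V ∈ 𝓝 (1 : G) := by
    have : {V : Set G | V ∈ 𝓝 (1 : G)} ∈ 𝓟 {V : Set G | V ∈ 𝓝 (1 : G)} := mem_principal_self _
    exact (hFle.trans inf_le_right) this
  have hF3 : ∀ W ∈ 𝓝 (1 : G), ∀ᶠ V in (F : Filter (Set G)), V ⊆ W := by
    intro W hW
    exact Filter.Eventually.filter_mono hF1 (eventually_smallSets.2 ⟨W, hW, fun V hV => hV⟩)
  -- exit times
  have hex : ∀ X : Set G, X ⊆ K0 → ∀ V : Set G, ∃ s : ℕ, V ∈ 𝓝 (1 : G) → V ⊆ X →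
      1 ≤ s ∧ QQ V ^ s ⊆ X ∧ ¬ QQ V ^ (s + 1) ⊆ X := by
    intro X hX V
    by_cases hV : V ∈ 𝓝 (1 : G) ∧ V ⊆ X
    · obtain ⟨n, hn⟩ := hexit V hV.1
      obtain ⟨s, hs⟩ := exists_exit (qq_us (mem_of_mem_nhds hV.1)).1 ((qq_sub V).trans hV.2)
        ⟨n, fun h => hn (h.trans hX)⟩
      exact ⟨s, fun _ _ => hs⟩
    · exact ⟨0, fun h1 h2 => absurd ⟨h1, h2⟩ hV⟩
  choose s hs using hex K0 subset_rfl
  have hs' : ∀ᶠ V in (F : Filter (Set G)), US (QQ V) ∧ QQ V ⊆ V ∧ 1 ≤ s V ∧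
      QQ V ^ s V ⊆ K0 := by
    filter_upwards [hF2, hF3 K0 hK0n] with V h1 h2
    exact ⟨qq_us (mem_of_mem_nhds h1), qq_sub V, (hs V h1 h2).1, (hs V h1 h2).2.1⟩
  obtain ⟨H, hH⟩ := hLGRP hG G (F : Filter (Set G)) QQ s K0 hF1 hs' hK0c
  have hHK : (H : Set G) ⊆ K0 := by
    rw [hH]
    exact hLSUB G _ _ K0 hK0cl (hs'.mono fun V h => h.2.2.2)
  have hHc : IsCompact (H : Set G) := by
    refine hK0c.of_isClosed_subset ?_ hHK
    rw [hH]
    exact hLCL G _ _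
  have hK0i : interior K0 ∈ 𝓝 (1 : G) := interior_mem_nhds.2 hK0n
  obtain ⟨N, O1, hNH, hNc, hNK, hO1, hNO1, hS⟩ := hPWG G H (interior K0) hHc hK0i
  set O : Set G := O1 ∩ interior K0 with hO
  have hOo : IsOpen O := hO1.inter isOpen_interior
  have hOK : O ⊆ K0 := Set.inter_subset_right.trans interior_subset
  have hNO : (N : Set G) ⊆ O := Set.subset_inter hNO1 hNK
  have hO1n : O ∈ 𝓝 (1 : G) := hOo.mem_nhds (hNO N.one_mem)
  choose t ht using hex O hOK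
  have ht' : ∀ᶠ V in (F : Filter (Set G)), US (QQ V) ∧ QQ V ⊆ V ∧ 1 ≤ t V ∧
      QQ V ^ t V ⊆ K0 := by
    filter_upwards [hF2, hF3 O hO1n] with V h1 h2
    exact ⟨qq_us (mem_of_mem_nhds h1), qq_sub V, (ht V h1 h2).1, (ht V h1 h2).2.1.trans hOK⟩
  obtain ⟨H', hH'⟩ := hLGRP hG G (F : Filter (Set G)) QQ t K0 hF1 ht' hK0c
  have hts : ∀ᶠ V in (F : Filter (Set G)), QQ V ^ t V ⊆ QQ V ^ s V := by
    filter_upwards [hF2, hF3 K0 hK0n, hF3 O hO1n] with V h1 h2 h3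
    refine pow_mono (qq_us (mem_of_mem_nhds h1)).1 ?_
    by_contra hlt
    exact (hs V h1 h2).2.2 ((pow_mono (qq_us (mem_of_mem_nhds h1)).1 (by omega)).trans
      ((ht V h1 h3).2.1.trans hOK))
  have hH'H : H' ≤ H := by
    intro x hx
    have hx' : x ∈ (H' : Set G) := hx
    rw [hH'] at hx'
    have : x ∈ (H : Set G) := by
      rw [hH]
      intro O' hO'
      filter_upwards [hx' O' hO', hts] with V h1 h2
      exact h1.mono (Set.inter_subset_inter_left _ h2)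
    exact this
  have hH'O : (H' : Set G) ⊆ closure O1 := by
    rw [hH']
    refine hLSUB G _ _ _ isClosed_closure ?_
    filter_upwards [hF2, hF3 O hO1n] with V h1 h2
    exact (ht V h1 h2).2.1.trans (Set.inter_subset_left.trans subset_closure)
  have hH'N : H' ≤ N := hS H' hH'H hH'O
  have hlast : ∀ᶠ V in (F : Filter (Set G)), QQ V ^ (t V + 1) ⊆ O := by
    refine hLCOV G F _ (K0 * K0) O (hK0c.mul hK0c) ?_ hOo ?_
    · filter_upwards [ht', hF3 K0 hK0n] with V h1 h2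
      rw [pow_succ]
      exact Set.mul_subset_mul h1.2.2.2 ((qq_sub V).trans h2)
    · refine (hLSTEP G _ QQ t hF1 (Eventually.of_forall qq_sub)).trans ?_
      rw [← hH']
      exact fun x hx => hNO (hH'N hx)
  have hfalse : ∀ᶠ V in (F : Filter (Set G)), False := by
    filter_upwards [hlast, hF2, hF3 O hO1n] with V h1 h2 h3
    exact (ht V h2 h3).2.2 h1
  exact (hfalse.exists).elim fun _ h => h

end Pool.Agent.W660.GY.P3.TASMb
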