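import Pool.Agent.W660.GY.Part3.Stm

namespace Pool.Agent.W660.GY.P3.TELb

open Filter Topology MeasureTheory
open scoped Pointwise

theorem tel : S_TEL := by
  intro G _ φ Q A ε hQ h1 h2 g hg x
  have hpow : ∀ m : ℕ, g ^ m ∈ Q := fun m => by
    have := hQ.2 g hg m; rwa [zpow_natCast] at this
  have key : ∀ m : ℕ, |φ x - φ ((g ^ m)⁻¹ * x) - m * (φ x - φ (g⁻¹ * x))| ≤ m * ε := by
    intro m
    induction m with
    | zero => simp
    | succ m ih =>
      have h3 := h2 g hg (g ^ m) (hpow m) x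
      have h4 : (g ^ (m + 1))⁻¹ * x = g⁻¹ * ((g ^ m)⁻¹ * x) := by
        rw [pow_succ, mul_inv_rev, mul_assoc]
      rw [h4]
      push_cast
      have h5 := abs_sub (φ x - φ ((g ^ m)⁻¹ * x) - m * (φ x - φ (g⁻¹ * x)))
        ((φ x - φ (g⁻¹ * x)) - (φ ((g ^ m)⁻¹ * x) - φ (g⁻¹ * ((g ^ m)⁻¹ * x))))
      have h6 : (φ x - φ ((g ^ m)⁻¹ * x) - m * (φ x - φ (g⁻¹ * x))) -
        ((φ x - φ (g⁻¹ * x)) - (φ ((g ^ m)⁻¹ * x) - φ (g⁻¹ * ((g ^ m)⁻¹ * x)))) =
        φ x - φ (g⁻¹ * ((g ^ m)⁻¹ * x)) - (m + 1) * (φ x - φ (g⁻¹ * x)) := by ring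
      rw [h6] at h5
      linarith
  by_contra hcon
  push Not at hcon
  set D := φ x - φ (g⁻¹ * x) with hD
  obtain ⟨m, hm⟩ := exists_nat_gt (A / (|D| - ε))
  have hpos : 0 < |D| - ε := by linarith
  have h3 := key m
  have h4 := h1 (g ^ m) (hpow m) x
  rw [div_lt_iff₀ hpos] at hm
  have h5 : (m : ℝ) * |D| ≤ A + m * ε := by
    have h6 : (m : ℝ) * D = (φ x - φ ((g ^ m)⁻¹ * x)) - (φ x - φ ((g ^ m)⁻¹ * x) - m * D) := by ring
    have h7 : |(m : ℝ) * D| = m * |D| := by rw [abs_mul, Nat.abs_cast]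
    rw [← h7, h6]
    exact (abs_sub _ _).trans (add_le_add h4 h3)
  nlinarith

theorem lgrp : S_LGRP := by
  intro hG G _ _ _ _ _ F Q s K hF hQ hK
  refine ⟨{ carrier := Lim F fun V => Q V ^ s V, mul_mem' := ?_, one_mem' := ?_, inv_mem' := ?_ }, rfl⟩
  · intro x y hx hy O hO
    have hc : Tendsto (fun p : (G × G) × G => p.1.1 * p.1.2 * p.2⁻¹) (𝓝 ((x, y), 1)) (𝓝 (x * y)) := by
      have : Continuous fun p : (G × G) × G => p.1.1 * p.1.2 * p.2⁻¹ := by fun_prop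
      have h := this.tendsto ((x, y), 1)
      simpa using h
    have h1 := hc hO
    rw [mem_map, nhds_prod_eq, nhds_prod_eq] at h1
    obtain ⟨S, hS, U1, hU1, hSU⟩ := mem_prod_iff.1 h1
    obtain ⟨O1, hO1, O2, hO2, hO12⟩ := mem_prod_iff.1 hS
    obtain ⟨V1, hV1, hV1Q⟩ := hG G K U1 hK hU1
    have hsm : ∀ᶠ V in F, V ⊆ V1 :=
      Filter.Eventually.filter_mono hF (eventually_smallSets.2 ⟨V1, hV1, fun V hV => hV⟩)
    filter_upwards [hQ, hsm, hx O1 hO1, hy O2 hO2] with V h2 h3 h4 h5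
    obtain ⟨a, ha, haO⟩ := h4
    obtain ⟨b, hb, hbO⟩ := h5
    have h6 : a * b ∈ Q V ^ (2 * s V) := by
      rw [two_mul, pow_add]; exact Set.mul_mem_mul ha hb
    obtain ⟨c, hc', u, hu, hcu⟩ := Set.mem_mul.1
      (hV1Q (Q V) h2.1 (h2.2.1.trans h3) (s V) h2.2.2.1 h2.2.2.2 h6)
    refine ⟨c, hc', ?_⟩
    have h7 : c = a * b * u⁻¹ := by rw [← hcu]; group
    rw [h7]
    exact hSU (Set.mk_mem_prod (hO12 (Set.mk_mem_prod haO hbO)) hu)
  · intro O hO
    filter_upwards [hQ] with V h2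
    exact ⟨1, Set.one_mem_pow h2.1.1, mem_of_mem_nhds hO⟩
  · intro x hx O hO
    have h1 : O⁻¹ ∈ 𝓝 x := (continuous_inv.tendsto x) hO
    filter_upwards [hQ, hx O⁻¹ h1] with V h2 h3
    obtain ⟨a, ha, haO⟩ := h3
    have h4 : (Q V)⁻¹ = Q V := by
      ext g
      rw [Set.mem_inv]
      constructor
      · intro h
        have := h2.1.2 _ h (-1)
        simpa using this
      · intro h
        have := h2.1.2 _ h (-1)
        simpa using this
    refine ⟨a⁻¹, ?_, Set.mem_inv.1 haO⟩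
    rw [← h4, inv_pow, Set.mem_inv, inv_inv]
    exact ha

theorem lstep : S_LSTEP := by
  intro G _ _ _ F Q s hF hQ x hx O hO
  have hc : Tendsto (fun p : G × G => p.1 * p.2⁻¹) (𝓝 (x, 1)) (𝓝 x) := by
    have : Continuous fun p : G × G => p.1 * p.2⁻¹ := by fun_prop
    have h := this.tendsto (x, 1)
    simpa using h
  have h1 := hc hO
  rw [mem_map, nhds_prod_eq] at h1
  obtain ⟨O1, hO1, U1, hU1, hOU⟩ := mem_prod_iff.1 h1
  have hsm : ∀ᶠ V in F, V ⊆ U1 :=
    Filter.Eventually.filter_mono hF (eventually_smallSets.2 ⟨U1, hU1, fun V hV => hV⟩)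
  filter_upwards [hQ, hsm, hx O1 hO1] with V h2 h3 h4
  obtain ⟨z, hz, hzO⟩ := h4
  rw [pow_succ] at hz
  obtain ⟨a, ha, b, hb, rfl⟩ := Set.mem_mul.1 hz
  refine ⟨a, ha, ?_⟩
  have h5 : a = a * b * b⁻¹ := by group
  rw [h5]
  exact hOU (Set.mk_mem_prod hzO (h3 (h2 hb)))

theorem pwlg : S_PWLG := by
  intro hP G _ _ _ _ _ H U hH hU
  have hcs : CompactSpace H := isCompact_iff_compactSpace.1 hH
  obtain ⟨N0, O0, hN0c, hN0U, hO0, hN0O, hS⟩ := hP H (Subtype.val ⁻¹' U)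
    (continuous_subtype_val.continuousAt.preimage_mem_nhds (by simpa using hU))
  have hNc : IsCompact ((N0.map H.subtype : Subgroup G) : Set G) := by
    rw [Subgroup.coe_map]
    exact hN0c.isCompact.image continuous_subtype_val
  have hCc : IsCompact (Subtype.val '' (O0ᶜ : Set H)) :=
    hO0.isClosed_compl.isCompact.image continuous_subtype_val
  have hdisj : Disjoint ((N0.map H.subtype : Subgroup G) : Set G)
      (Subtype.val '' (O0ᶜ : Set H)) := by
    rw [Set.disjoint_left]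
    rintro x ⟨y, hy, rfl⟩ ⟨z, hz, hzy⟩
    have : z = y := Subtype.val_injective hzy
    rw [this] at hz
    exact hz (hN0O hy)
  obtain ⟨O, O2, hO, hO2, hNO, hCO2, hd⟩ := SeparatedNhds.of_isCompact_isCompact hNc hCc hdisj
  refine ⟨N0.map H.subtype, O, Subgroup.map_subtype_le _, hNc, ?_, hO, hNO, ?_⟩
  · rintro x ⟨y, hy, rfl⟩
    exact hN0U hy
  · intro S hSH hSO x hx
    have h1 : S.subgroupOf H ≤ N0 := by
      apply hS
      intro y hy
      by_contra hc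
      exact Set.disjoint_left.1 (hd.closure_left hO2) (hSO hy) (hCO2 ⟨y, hc, rfl⟩)
    exact ⟨⟨x, hSH hx⟩, h1 hx, rfl⟩

theorem casm : S_CASM := by
  intro hT hP G _ _ _ _ _ U hU
  obtain ⟨V, hV, H, hHc, hHU, hHS⟩ := hT G U hU
  obtain ⟨N, O1, hNH, hNc, hNU, hO1, hNO, hS⟩ := hP G H (interior V ∩ U) hHc
    (inter_mem (interior_mem_nhds.2 hV) hU)
  set O : Set G := O1 ∩ interior V with hO
  have hOo : IsOpen O := hO1.inter isOpen_interior
  have hNO' : (N : Set G) ⊆ O := Set.subset_inter hNO (hNU.trans Set.inter_subset_left)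
  have hSO : ∀ S : Subgroup G, (S : Set G) ⊆ O → S ≤ N := by
    intro S hS'
    exact hS S (hHS S (hS'.trans (Set.inter_subset_right.trans interior_subset)))
      (hS'.trans (Set.inter_subset_left.trans subset_closure))
  have hev : ∀ᶠ g in 𝓝 (1 : G), ∀ n ∈ (N : Set G), g * n * g⁻¹ ∈ O := by
    refine hNc.eventually_forall_of_forall_eventually fun n hn => ?_
    have hc : Continuous fun p : G × G => p.1 * p.2 * p.1⁻¹ := by fun_prop
    have h1 := hc.tendsto (1, n)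
    simp only [one_mul, inv_one, mul_one] at h1
    exact h1 (hOo.mem_nhds (hNO' hn))
  have hconj : ∀ g : G, (∀ n ∈ (N : Set G), g * n * g⁻¹ ∈ O) → ∀ n ∈ N, g * n * g⁻¹ ∈ N := by
    intro g hg n hn
    have h1 : N.map (MulAut.conj g).toMonoidHom ≤ N := by
      apply hSO
      rintro _ ⟨m, hm, rfl⟩
      exact hg m hm
    exact h1 ⟨n, hn, rfl⟩
  refine ⟨Subgroup.normalizer (N : Set G), N, O, ?_, Subgroup.le_normalizer, ?_, hNc, hNU.trans Set.inter_subset_right,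
    hOo, hNO', hSO⟩
  · refine Subgroup.isOpen_of_mem_nhds _ (g := 1) ?_
    have hev2 : ∀ᶠ g in 𝓝 (1 : G), ∀ n ∈ (N : Set G), g⁻¹ * n * g⁻¹⁻¹ ∈ O := by
      have h1 : Tendsto (fun g : G => g⁻¹) (𝓝 1) (𝓝 1) := by
        have := continuous_inv.tendsto (1 : G)
        rwa [inv_one] at this
      exact h1.eventually hev
    filter_upwards [hev, hev2] with g h1 h2
    show g ∈ Subgroup.normalizer (N : Set G)
    rw [Subgroup.mem_normalizer_iff]
    intro n
    constructor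
    · exact fun hn => hconj g h1 n hn
    · intro hn
      have := hconj g⁻¹ h2 _ hn
      have h3 : g⁻¹ * (g * n * g⁻¹) * g⁻¹⁻¹ = n := by group
      rwa [h3] at this
  · intro g hg n hn
    exact (Subgroup.mem_normalizer_iff.1 hg n).1 hn

end Pool.Agent.W660.GY.P3.TELb
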