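import Pool.Agent.W660.GY.Part3.Stm

namespace Pool.Agent.W660.GY.P3.VDRb

open Filter Topology
open scoped Pointwise

theorem vdr : S_VDR := by
  intro hVDT G _ _ _ _ _
  set G0 : Subgroup G := Subgroup.connectedComponentOfOne G with hG0
  have hG0c : (G0 : Set G) = connectedComponent (1 : G) := rfl
  have hnorm : G0.Normal := by
    refine ⟨fun n hn g => ?_⟩
    have hc : Continuous fun x : G => g * x * g⁻¹ := by fun_prop
    have h1 := hc.image_connectedComponent_subset 1 ⟨n, hn, rfl⟩
    show g * n * g⁻¹ ∈ connectedComponent (1 : G)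
    simpa using h1
  have hcl : IsClosed (G0 : Set G) := isClosed_connectedComponent
  have hclf : Fact (IsClosed (G0 : Set G)) := ⟨hcl⟩
  have hT2 : T2Space (G ⧸ G0) := by
    have : T1Space (G ⧸ G0) := inferInstance
    infer_instance
  have hco : Topology.IsCoinducing (QuotientGroup.mk : G → G ⧸ G0) :=
    (QuotientGroup.isQuotientMap_mk (N := G0)).isCoinducing
  have hfib : ∀ y : G ⧸ G0, IsConnected ((QuotientGroup.mk : G → G ⧸ G0) ⁻¹' {y}) := by
    intro y
    obtain ⟨a, rfl⟩ := QuotientGroup.mk_surjective y
    have h1 : (QuotientGroup.mk : G → G ⧸ G0) ⁻¹' {(a : G ⧸ G0)} =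
        (fun x => a * x) '' connectedComponent (1 : G) := by
      ext x
      simp only [Set.mem_preimage, Set.mem_singleton_iff, Set.mem_image]
      constructor
      · intro hx
        refine ⟨a⁻¹ * x, ?_, by group⟩
        exact QuotientGroup.eq.1 hx.symm
      · rintro ⟨z, hz, rfl⟩
        refine (QuotientGroup.eq.2 ?_).symm
        have : a⁻¹ * (a * z) = z := by group
        rw [this]; exact hz
    rw [h1]
    exact isConnected_connectedComponent.image _ (by fun_prop)
  have hTD : TotallyDisconnectedSpace (G ⧸ G0) := by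
    rw [totallyDisconnectedSpace_iff_connectedComponent_one]
    have h1 := hco.image_connectedComponent hfib 1
    have h2 : ((1 : G) : G ⧸ G0) = 1 := rfl
    rw [h2] at h1
    rw [← h1]
    ext y
    simp only [Set.mem_image, Set.mem_singleton_iff]
    constructor
    · rintro ⟨x, hx, rfl⟩
      exact (QuotientGroup.eq_one_iff x).2 hx
    · rintro rfl
      exact ⟨1, mem_connectedComponent, rfl⟩
  have hLC : LocallyCompactSpace (G ⧸ G0) := inferInstance
  obtain ⟨C, hCo, hCc⟩ := hVDT (G ⧸ G0)
  refine ⟨C.comap (QuotientGroup.mk' G0), ?_, ?_⟩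
  · exact hCo.preimage QuotientGroup.continuous_mk
  · intro L hL hLC'
    have hG0L : G0 ≤ L := by
      intro x hx
      have hclo : IsClopen (L : Set G) := ⟨L.isClosed_of_isOpen hL, hL⟩
      exact hclo.connectedComponent_subset L.one_mem hx
    have hCcs : CompactSpace C := isCompact_iff_compactSpace.1 hCc
    set D : Subgroup (G ⧸ G0) := L.map (QuotientGroup.mk' G0) with hD
    have hDo : IsOpen (D : Set (G ⧸ G0)) := by
      rw [hD, Subgroup.coe_map]
      exact QuotientGroup.isOpenMap_coe _ hL
    have hDC : IsOpen ((D.subgroupOf C : Subgroup C) : Set C) := by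
      rw [Subgroup.coe_subgroupOf]
      exact hDo.preimage continuous_subtype_val
    have hfin : (D.subgroupOf C).index ≠ 0 := by
      have : Finite (C ⧸ D.subgroupOf C) := Subgroup.quotient_finite_of_isOpen _ hDC
      exact (Subgroup.finiteIndex_of_finite_quotient (H := D.subgroupOf C)).index_ne_zero
    have hLD : L = D.comap (QuotientGroup.mk' G0) := by
      rw [hD, Subgroup.comap_map_eq, QuotientGroup.ker_mk', sup_eq_left.2 hG0L]
    refine ⟨?_⟩
    show L.relIndex (C.comap (QuotientGroup.mk' G0)) ≠ 0
    rw [hLD, Subgroup.relIndex_comap, Subgroup.map_comap_eq_self_of_surjective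
      (QuotientGroup.mk'_surjective G0)]
    exact hfin

end Pool.Agent.W660.GY.P3.VDRb
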